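import Pool.Agent.Lib_helper48.MR.U
import Pool.Agent.Lib_helper48.OU.U24
import Pool.Agent.Lib_helper24.GS.G5

/-! The case without form: an element of rank at most two up to scalars. -/

set_option autoImplicit false
set_option linter.unusedSectionVars false

namespace Pool.Agent.LM2

open Module Pool.Agent.OT Pool.Agent.OU Pool.Agent.RM

attribute [local instance 100] LieRing.ofAssociativeRing

variable {K : Type*} [Field K] [CharZero K] [IsAlgClosed K]
variable {g : Type*} [LieRing g] [LieAlgebra K g]
variable {V : Type*} [AddCommGroup V] [Module K V] [FiniteDimensional K V]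
  [LieRingModule g V] [LieModule K g V] [LieModule.IsIrreducible K g V]

/-- An element of rank at most two up to scalars, from a diagonalisable element of the normaliser
with one large eigenspace whose other eigenvalues are simple. -/
theorem elem_U {s : V ≃ₗ[K] V} {r : ℕ}
    (hs : ∀ y : g, ∃ z : g, ∀ v : V, s ⁅y, v⁆ = ⁅z, s v⁆) (hD : Diag (s : Module.End K V))
    (h1 : finrank K (Module.End.eigenspace (s : Module.End K V) 1) + r = finrank K V)
    (hk : ∀ ζ : K, ζ ≠ 1 → finrank K (Module.End.eigenspace (s : Module.End K V) ζ) ≤ 1)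
    (hr0 : 0 < r) (hr : 4 * r < finrank K V) :
    ∃ (x : g) (c : K), (¬ ∃ c : K, ∀ v : V, ⁅x, v⁆ = c • v) ∧
      finrank K (LinearMap.range (LieModule.toEnd K g V x - c • (1 : Module.End K V))) ≤ 2 := by
  have hnt : Nontrivial V := LieModule.nontrivial_of_isIrreducible K g V
  have hn : (finrank K V : K) ≠ 0 := Nat.cast_ne_zero.mpr Module.finrank_pos.ne'
  obtain ⟨htr, -⟩ := Pool.Agent.GS.facts (K := K) (g := g) V
  obtain ⟨μ, -, y, ⟨x, rfl⟩, hy0, -, hrk⟩ := Pool.Agent.MR.mr_U
    (Pool.Agent.GS.phi (K := K) (g := g) V).range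
    (by
      rintro y hy
      exact htr ⟨y, hy⟩)
    (fun W hW => irr_of (K := K) (g := g) W (fun x v hv => by
      have h2 := hW _ ⟨x, rfl⟩ v hv
      have h3 : Pool.Agent.GS.phi (K := K) V x v = ⁅x, v⁆ -
        ((finrank K V : K)⁻¹ * LinearMap.trace K V (LieModule.toEnd K g V x)) • v := rfl
      rw [LieHom.coe_toLinearMap, h3] at h2
      have h4 := Submodule.add_mem _ h2 (Submodule.smul_mem W
        ((finrank K V : K)⁻¹ * LinearMap.trace K V (LieModule.toEnd K g V x)) hv)
      rwa [sub_add_cancel] at h4))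
    (s := s)
    (by
      rintro _ ⟨x, rfl⟩
      obtain ⟨z, hz⟩ := hs x
      refine ⟨z, ?_⟩
      have h2 : LieModule.toEnd K g V z = s.conj (LieModule.toEnd K g V x) := by
        ext w
        have h1 := hz (s.symm w)
        rw [LinearEquiv.apply_symm_apply] at h1
        exact h1.symm
      have h3 : LinearMap.trace K V (LieModule.toEnd K g V z) =
          LinearMap.trace K V (LieModule.toEnd K g V x) := by
        rw [h2]
        exact LinearMap.trace_conj' _ _
      show Pool.Agent.GS.phi V z = s.conj (Pool.Agent.GS.phi V x)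
      rw [Pool.Agent.GS.phi_apply, Pool.Agent.GS.phi_apply, h3, h2, map_sub, map_smul]
      congr 2
      ext w
      show w = s (s.symm w)
      rw [LinearEquiv.apply_symm_apply])
    hD h1 hk hr0 hr
  refine ⟨x, (finrank K V : K)⁻¹ * LinearMap.trace K V (LieModule.toEnd K g V x), ?_, hrk⟩
  rintro ⟨a, ha⟩
  apply hy0
  have h2 : LieModule.toEnd K g V x = a • (1 : Module.End K V) := LinearMap.ext ha
  show Pool.Agent.GS.phi V x = 0
  rw [Pool.Agent.GS.phi_apply, h2, map_smul, LinearMap.trace_one, smul_eq_mul]
  have h3 : (finrank K V : K)⁻¹ * (a * (finrank K V : K)) = a := by field_simp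
  rw [h3, sub_self]

end Pool.Agent.LM2
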