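import Pool.Agent.Lib_helper48.TD.D6

/-! A semisimple normaliser with eigenvalues 1 (dim V - 2 times), a, b, a and b different: the
symplectic irreducible Lie space contains an element of square zero and rank at most two. -/

set_option autoImplicit false
set_option linter.unusedSectionVars false
set_option linter.unusedSimpArgs false

namespace Pool.Agent.LM2

open Module Pool.Agent.OT

section gen

variable {K : Type*} [Field K] {E : Type*} [AddCommGroup E] [Module K E]

theorem aeval_mem (T : Module.End K E) (L : Submodule K E) (hT : ∀ x ∈ L, T x ∈ L)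
    (q : Polynomial K) : ∀ x ∈ L, Polynomial.aeval T q x ∈ L := by
  induction q using Polynomial.induction_on' with
  | add p q hp hq =>
    intro x hx
    rw [map_add, LinearMap.add_apply]
    exact L.add_mem (hp x hx) (hq x hx)
  | monomial n a =>
    intro x hx
    rw [Polynomial.aeval_monomial, Module.End.mul_apply, Module.algebraMap_end_apply]
    refine L.smul_mem _ ?_
    induction n with
    | zero => rw [pow_zero, Module.End.one_apply]; exact hx
    | succ n ih => rw [pow_succ', Module.End.mul_apply]; exact hT _ ih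

theorem aeval_eig (T : Module.End K E) {x : E} {μ : K} (hx : T x = μ • x) (q : Polynomial K) :
    Polynomial.aeval T q x = q.eval μ • x := by
  induction q using Polynomial.induction_on' with
  | add p q hp hq => rw [map_add, LinearMap.add_apply, hp, hq, Polynomial.eval_add, add_smul]
  | monomial n a =>
    rw [Polynomial.aeval_monomial, Module.End.mul_apply, Module.algebraMap_end_apply,
      Polynomial.eval_monomial]
    have h : (T ^ n) x = μ ^ n • x := by
      induction n with
      | zero => rw [pow_zero, pow_zero, Module.End.one_apply, one_smul]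
      | succ n ih => rw [pow_succ', Module.End.mul_apply, ih, map_smul, hx, smul_smul, pow_succ]
    rw [h, smul_smul]

end gen

variable {K : Type*} [Field K] [CharZero K] [IsAlgClosed K]
variable {V : Type*} [AddCommGroup V] [Module K V] [FiniteDimensional K V]

/-- A normaliser of an irreducible Lie space preserving a form is a similitude. -/
theorem simil [Nontrivial V] (ω : LinearMap.BilinForm K V) (hω : ω.Nondegenerate)
    (L : Submodule K (Module.End K V))
    (hskew : ∀ x ∈ L, ∀ v w, ω (x v) w = - ω v (x w))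
    (hirr : ∀ W : Submodule K V, (∀ x ∈ L, ∀ v ∈ W, x v ∈ W) → W = ⊥ ∨ W = ⊤)
    (s s' : Module.End K V) (hss : s' * s = 1) (hs : ∀ x ∈ L, s * x * s' ∈ L) :
    ∃ χ : K, ∀ v w, ω (s v) (s w) = χ * ω v w := by
  let B : V ≃ₗ[K] Module.Dual K V := LinearMap.BilinForm.toDual ω hω
  have hB : ∀ v w, B v w = ω v w := fun v w => LinearMap.BilinForm.toDual_def hω
  let T : Module.End K V := B.symm.toLinearMap ∘ₗ s.dualMap ∘ₗ B.toLinearMap ∘ₗ s
  have hT : ∀ v w, ω (T v) w = ω (s v) (s w) := by
    intro v w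
    rw [← hB]
    show B (B.symm (s.dualMap (B (s v)))) w = _
    rw [LinearEquiv.apply_symm_apply]
    show B (s v) (s w) = _
    rw [hB]
  obtain ⟨c, hc⟩ := TD.tr_schur (fun x : L => (x : Module.End K V))
    (fun W hW => hirr W fun x hx v hv => hW ⟨x, hx⟩ v hv) T (by
      rintro ⟨x, hx⟩
      ext v
      apply B.injective
      ext w
      rw [hB, hB, Module.End.mul_apply, Module.End.mul_apply, hskew x hx, hT, hT]
      have e : ∀ v, s (x v) = (s * x * s') (s v) := by
        intro v
        have h1 : s' (s v) = v := LinearMap.congr_fun hss v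
        rw [Module.End.mul_apply, Module.End.mul_apply, h1]
      show ω (s (x v)) (s w) = - ω (s v) (s (x w))
      rw [e v, e w, hskew _ (hs x hx)])
  refine ⟨c, fun v w => ?_⟩
  rw [← hT, hc, LinearMap.smul_apply, Module.End.one_apply, map_smul, LinearMap.smul_apply,
    smul_eq_mul]

/-- The projections attached to s. -/
structure Dec (ω : LinearMap.BilinForm K V) (s s' P0 Pu Pv : Module.End K V) (u v : V) (a : K) :
    Prop where
  alt : ∀ x y, ω x y = - ω y x
  sum : P0 + Pu + Pv = 1
  u0 : u ≠ 0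
  v0 : v ≠ 0
  uu : Pu u = u
  vv : Pv v = v
  ku : ∀ t, ∃ k : K, Pu t = k • u
  kv : ∀ t, ∃ k : K, Pv t = k • v
  pu : ∀ t, Pu (P0 t) = 0
  pv : ∀ t, Pv (P0 t) = 0
  uv : Pu v = 0
  vu : Pv u = 0
  s : s = P0 + a • Pu + a⁻¹ • Pv
  s' : s' = P0 + a⁻¹ • Pu + a • Pv
  ou : ∀ t, ω (P0 t) u = 0
  ov : ∀ t, ω (P0 t) v = 0
  ouv : ω u v ≠ 0

section dec

variable {ω : LinearMap.BilinForm K V} {s s' P0 Pu Pv : Module.End K V} {u v : V} {a : K}

theorem Dec.idu (D : Dec ω s s' P0 Pu Pv u v a) : Pu * Pu = Pu := by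
  ext t
  obtain ⟨k, hk⟩ := D.ku t
  rw [Module.End.mul_apply, hk, map_smul, D.uu]

theorem Dec.idv (D : Dec ω s s' P0 Pu Pv u v a) : Pv * Pv = Pv := by
  ext t
  obtain ⟨k, hk⟩ := D.kv t
  rw [Module.End.mul_apply, hk, map_smul, D.vv]

theorem Dec.mu0 (D : Dec ω s s' P0 Pu Pv u v a) : Pu * P0 = 0 := by
  ext t; rw [Module.End.mul_apply, D.pu]; rfl

theorem Dec.mv0 (D : Dec ω s s' P0 Pu Pv u v a) : Pv * P0 = 0 := by
  ext t; rw [Module.End.mul_apply, D.pv]; rfl

theorem Dec.muv (D : Dec ω s s' P0 Pu Pv u v a) : Pu * Pv = 0 := by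
  ext t
  obtain ⟨k, hk⟩ := D.kv t
  rw [Module.End.mul_apply, hk, map_smul, D.uv, smul_zero]; rfl

theorem Dec.mvu (D : Dec ω s s' P0 Pu Pv u v a) : Pv * Pu = 0 := by
  ext t
  obtain ⟨k, hk⟩ := D.ku t
  rw [Module.End.mul_apply, hk, map_smul, D.vu, smul_zero]; rfl

theorem Dec.e0 (D : Dec ω s s' P0 Pu Pv u v a) : P0 = 1 - Pu - Pv := by
  rw [← D.sum]; abel

theorem Dec.m0u (D : Dec ω s s' P0 Pu Pv u v a) : P0 * Pu = 0 := by
  rw [D.e0, sub_mul, sub_mul, one_mul, D.idu, D.mvu, sub_self, sub_zero]

theorem Dec.m0v (D : Dec ω s s' P0 Pu Pv u v a) : P0 * Pv = 0 := by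
  rw [D.e0, sub_mul, sub_mul, one_mul, D.idv, D.muv, sub_zero, sub_self]

theorem Dec.id0 (D : Dec ω s s' P0 Pu Pv u v a) : P0 * P0 = P0 := by
  nth_rewrite 1 [D.e0]
  rw [sub_mul, sub_mul, one_mul, D.mu0, D.mv0, sub_zero, sub_zero]

theorem Dec.swap (D : Dec ω s s' P0 Pu Pv u v a) : Dec ω s s' P0 Pv Pu v u a⁻¹ := by
  refine ⟨D.alt, ?_, D.v0, D.u0, D.vv, D.uu, D.kv, D.ku, D.pv, D.pu, D.vu, D.uv, ?_, ?_, D.ov,
    D.ou, ?_⟩
  · rw [← D.sum]; abel
  · rw [D.s, inv_inv]; abel
  · rw [D.s', inv_inv]; abel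
  · rw [D.alt]; exact neg_ne_zero.mpr D.ouv

theorem Dec.self0 (D : Dec ω s s' P0 Pu Pv u v a) (x : V) : ω x x = 0 := by
  have h := D.alt x x
  have h2 : (2 : K) * ω x x = 0 := by linear_combination h
  exact (mul_eq_zero.mp h2).resolve_left two_ne_zero

theorem Dec.split (D : Dec ω s s' P0 Pu Pv u v a) (t : V) : t = P0 t + Pu t + Pv t := by
  have := LinearMap.congr_fun D.sum t
  exact this.symm

/-- The conjugation by s. -/
def Tc (s s' : Module.End K V) : Module.End K (Module.End K V) :=
  LinearMap.mulLeft K s ∘ₗ LinearMap.mulRight K s'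

theorem Tc_apply (s s' x : Module.End K V) : Tc s s' x = s * x * s' := by
  show s * (x * s') = _
  rw [mul_assoc]

theorem Dec.comp (D : Dec ω s s' P0 Pu Pv u v a) (ha : a ≠ 0) (x : Module.End K V)
    (q : Polynomial K) :
    Polynomial.aeval (Tc s s') q x = q.eval 1 • (P0 * x * P0 + Pu * x * Pu + Pv * x * Pv) +
      q.eval a • (Pu * x * P0 + P0 * x * Pv) + q.eval a⁻¹ • (P0 * x * Pu + Pv * x * P0) +
      q.eval (a * a) • (Pu * x * Pv) + q.eval (a⁻¹ * a⁻¹) • (Pv * x * Pu) := by
  have sP0 : s * P0 = P0 := by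
    rw [D.s, add_mul, add_mul, smul_mul_assoc, smul_mul_assoc, D.id0, D.mu0, D.mv0, smul_zero,
      smul_zero, add_zero, add_zero]
  have sPu : s * Pu = a • Pu := by
    rw [D.s, add_mul, add_mul, smul_mul_assoc, smul_mul_assoc, D.m0u, D.idu, D.mvu, smul_zero,
      zero_add, add_zero]
  have sPv : s * Pv = a⁻¹ • Pv := by
    rw [D.s, add_mul, add_mul, smul_mul_assoc, smul_mul_assoc, D.m0v, D.idv, D.muv, smul_zero,
      zero_add, zero_add]
  have P0s : P0 * s' = P0 := by
    rw [D.s', mul_add, mul_add, mul_smul_comm, mul_smul_comm, D.id0, D.m0u, D.m0v, smul_zero,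
      smul_zero, add_zero, add_zero]
  have Pus : Pu * s' = a⁻¹ • Pu := by
    rw [D.s', mul_add, mul_add, mul_smul_comm, mul_smul_comm, D.mu0, D.idu, D.muv, smul_zero,
      zero_add, add_zero]
  have Pvs : Pv * s' = a • Pv := by
    rw [D.s', mul_add, mul_add, mul_smul_comm, mul_smul_comm, D.mv0, D.idv, D.mvu, smul_zero,
      zero_add, zero_add]
  have blk : ∀ (P Q : Module.End K V) (l m : K), s * P = l • P → Q * s' = m • Q →
      Polynomial.aeval (Tc s s') q (P * x * Q) = q.eval (l * m) • (P * x * Q) := by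
    intro P Q l m hP hQ
    apply aeval_eig
    rw [Tc_apply]
    calc s * (P * x * Q) * s' = (s * P) * x * (Q * s') := by simp only [mul_assoc]
      _ = _ := by rw [hP, hQ, smul_mul_assoc, smul_mul_assoc, mul_smul_comm, smul_smul]
  have hx : x = P0 * x * P0 + Pu * x * Pu + Pv * x * Pv + (Pu * x * P0 + P0 * x * Pv) +
      (P0 * x * Pu + Pv * x * P0) + Pu * x * Pv + Pv * x * Pu := by
    have : x = (P0 + Pu + Pv) * x * (P0 + Pu + Pv) := by rw [D.sum, one_mul, mul_one]
    nth_rewrite 1 [this]
    noncomm_ring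
  have e1 : s * P0 = (1 : K) • P0 := by rw [sP0, one_smul]
  have e2 : P0 * s' = (1 : K) • P0 := by rw [P0s, one_smul]
  nth_rewrite 1 [hx]
  simp only [map_add]
  rw [blk P0 P0 1 1 e1 e2, blk Pu Pu _ _ sPu Pus, blk Pv Pv _ _ sPv Pvs, blk Pu P0 _ 1 sPu e2,
    blk P0 Pv 1 _ e1 Pvs, blk P0 Pu 1 _ e1 Pus, blk Pv P0 _ 1 sPv e2, blk Pu Pv _ _ sPu Pvs,
    blk Pv Pu _ _ sPv Pus, mul_one, mul_one, mul_one, one_mul, one_mul, mul_inv_cancel₀ ha,
    inv_mul_cancel₀ ha]
  module

variable {L : Submodule K (Module.End K V)}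

/-- The key identity. -/
theorem Dec.key (D : Dec ω s s' P0 Pu Pv u v a) {y : Module.End K V}
    (hy : ∀ v w, ω (y v) w = - ω v (y w)) : Pu (y (P0 (y v))) = 0 := by
  obtain ⟨k, hk⟩ := D.ku (y (P0 (y v)))
  have h1 : ω (y (P0 (y v))) v = k * ω u v := by
    rw [D.split (y (P0 (y v))), map_add, map_add, LinearMap.add_apply, LinearMap.add_apply, D.ov,
      hk, map_smul, LinearMap.smul_apply, smul_eq_mul, zero_add]
    obtain ⟨m, hm⟩ := D.kv (y (P0 (y v)))
    rw [hm, map_smul, LinearMap.smul_apply, D.self0, smul_zero, add_zero]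
  have h2 : ω (y (P0 (y v))) v = 0 := by
    rw [hy]
    have h3 := D.split (y v)
    obtain ⟨k1, hk1⟩ := D.ku (y v)
    obtain ⟨k2, hk2⟩ := D.kv (y v)
    have h4 : ω (P0 (y v)) (y v) = 0 := by
      nth_rewrite 2 [h3]
      rw [map_add, map_add, hk1, hk2, map_smul, map_smul, D.ou, D.ov, D.self0, smul_zero,
        smul_zero, add_zero, add_zero]
    rw [h4, neg_zero]
  rw [h2] at h1
  have h3 : k = 0 := (mul_eq_zero.mp h1.symm).resolve_right D.ouv
  rw [hk, h3, zero_smul]

/-- Elements of the first type have square zero and rank at most two. -/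
theorem Dec.type1 (D : Dec ω s s' P0 Pu Pv u v a) {y : Module.End K V}
    (hy : ∀ v w, ω (y v) w = - ω v (y w)) (h : y = Pu * y * P0 + P0 * y * Pv) :
    y * y = 0 ∧ rk y ≤ 2 := by
  have hap : ∀ t, y t = Pu (y (P0 t)) + P0 (y (Pv t)) := by
    intro t
    have := LinearMap.congr_fun h t
    exact this
  constructor
  · ext t
    rw [Module.End.mul_apply, hap (y t)]
    obtain ⟨k, hk⟩ := D.kv t
    have h1 : P0 (y t) = k • P0 (y v) := by
      rw [hap t, map_add, hk, map_smul, map_smul, map_smul]
      have h2 : P0 (Pu (y (P0 t))) = 0 := LinearMap.congr_fun D.m0u _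
      have h3 : P0 (P0 (y v)) = P0 (y v) := LinearMap.congr_fun D.id0 _
      rw [h2, h3, zero_add]
    have h4 : Pv (y t) = 0 := by
      rw [hap t, map_add]
      have h2 : Pv (Pu (y (P0 t))) = 0 := LinearMap.congr_fun D.mvu _
      rw [h2, D.pv, add_zero]
    rw [h1, h4, map_smul, map_smul, D.key hy, smul_zero, map_zero, map_zero, add_zero]
    rfl
  · classical
    unfold rk
    have hle : LinearMap.range y ≤ Submodule.span K (({u, P0 (y v)} : Finset V) : Set V) := by
      rintro _ ⟨t, rfl⟩
      obtain ⟨k, hk⟩ := D.kv t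
      obtain ⟨m, hm⟩ := D.ku (y (P0 t))
      rw [hap t, hk, hm, map_smul, map_smul]
      refine Submodule.add_mem _ (Submodule.smul_mem _ _ (Submodule.subset_span ?_))
        (Submodule.smul_mem _ _ (Submodule.subset_span ?_))
      · simp
      · simp
    refine (Submodule.finrank_mono hle).trans ((finrank_span_finset_le_card _).trans ?_)
    exact Finset.card_le_two

end dec

/-- **Lemma R2** with the projections. -/
theorem r2_aux (ω : LinearMap.BilinForm K V) (L : Submodule K (Module.End K V))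
    (hbr : ∀ x ∈ L, ∀ y ∈ L, x * y - y * x ∈ L)
    (hskew : ∀ x ∈ L, ∀ v w, ω (x v) w = - ω v (x w))
    (hirr : ∀ W : Submodule K V, (∀ x ∈ L, ∀ v ∈ W, x v ∈ W) → W = ⊥ ∨ W = ⊤)
    {s s' P0 Pu Pv : Module.End K V} {u v : V} {a : K} (D : Dec ω s s' P0 Pu Pv u v a)
    (ha : a ≠ 0) (ha2 : a ≠ a⁻¹) (hs : ∀ x ∈ L, s * x * s' ∈ L) (hd : 4 < finrank K V) :
    ∃ y ∈ L, y ≠ 0 ∧ y * y = 0 ∧ rk y ≤ 2 := by
  have hT : ∀ x ∈ L, Tc s s' x ∈ L := fun x hx => by rw [Tc_apply]; exact hs x hx
  have a1 : a ≠ 1 := by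
    rintro rfl
    exact ha2 (by rw [inv_one])
  have ainv : a⁻¹ ≠ 0 := inv_ne_zero ha
  have ai1 : a⁻¹ ≠ 1 := by rwa [Ne, inv_eq_one]
  -- the conclusion from an element of type one
  have fin1 : ∀ y ∈ L, y ≠ 0 → y = Pu * y * P0 + P0 * y * Pv → ∃ y ∈ L, y ≠ 0 ∧ y * y = 0 ∧
      rk y ≤ 2 := fun y hy h0 h => ⟨y, hy, h0, (D.type1 (hskew y hy) h).1, (D.type1 (hskew y hy) h).2⟩
  have fin2 : ∀ y ∈ L, y ≠ 0 → y = Pv * y * P0 + P0 * y * Pu → ∃ y ∈ L, y ≠ 0 ∧ y * y = 0 ∧
      rk y ≤ 2 := fun y hy h0 h =>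
    ⟨y, hy, h0, (D.swap.type1 (hskew y hy) h).1, (D.swap.type1 (hskew y hy) h).2⟩
  by_cases h3 : a * a = a⁻¹
  · -- order three
    have h3a : a * a * a = 1 := by rw [h3, inv_mul_cancel₀ ha]
    have h3' : a⁻¹ * a⁻¹ = a := by
      rw [← h3]
      linear_combination a * h3a
    -- components
    have hA : ∀ x ∈ L, Pu * x * P0 + P0 * x * Pv + Pv * x * Pu ∈ L := by
      intro x hx
      have h4 := aeval_mem (Tc s s') L hT ((Polynomial.X - Polynomial.C 1) *
        (Polynomial.X - Polynomial.C a⁻¹)) x hx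
      rw [D.comp ha, h3, h3'] at h4
      simp only [Polynomial.eval_mul, Polynomial.eval_sub, Polynomial.eval_X, Polynomial.eval_C,
        sub_self, zero_mul, mul_zero, zero_smul, zero_add, add_zero] at h4
      have h5 : (a - 1) * (a - a⁻¹) ≠ 0 := mul_ne_zero (sub_ne_zero.mpr a1) (sub_ne_zero.mpr ha2)
      have h6 := L.smul_mem ((a - 1) * (a - a⁻¹))⁻¹ h4
      rwa [← smul_add, smul_smul, inv_mul_cancel₀ h5, one_smul] at h6
    have hB : ∀ x ∈ L, P0 * x * Pu + Pv * x * P0 + Pu * x * Pv ∈ L := by
      intro x hx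
      have h4 := aeval_mem (Tc s s') L hT ((Polynomial.X - Polynomial.C 1) *
        (Polynomial.X - Polynomial.C a)) x hx
      rw [D.comp ha, h3, h3'] at h4
      simp only [Polynomial.eval_mul, Polynomial.eval_sub, Polynomial.eval_X, Polynomial.eval_C,
        sub_self, zero_mul, mul_zero, zero_smul, zero_add, add_zero] at h4
      have h5 : (a⁻¹ - 1) * (a⁻¹ - a) ≠ 0 :=
        mul_ne_zero (sub_ne_zero.mpr ai1) (sub_ne_zero.mpr ha2.symm)
      have h6 := L.smul_mem ((a⁻¹ - 1) * (a⁻¹ - a))⁻¹ h4
      rwa [← smul_add, smul_smul, inv_mul_cancel₀ h5, one_smul] at h6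
    have hC : ∀ x ∈ L, P0 * x * P0 + Pu * x * Pu + Pv * x * Pv ∈ L := by
      intro x hx
      have h4 := L.sub_mem (L.sub_mem hx (hA x hx)) (hB x hx)
      have h5 : P0 * x * P0 + Pu * x * Pu + Pv * x * Pv =
          x - (Pu * x * P0 + P0 * x * Pv + Pv * x * Pu) -
            (P0 * x * Pu + Pv * x * P0 + Pu * x * Pv) := by
        have : x = (P0 + Pu + Pv) * x * (P0 + Pu + Pv) := by rw [D.sum, one_mul, mul_one]
        nth_rewrite 4 [this]
        noncomm_ring
      rw [h5]
      exact h4
    -- the homogeneous elements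
    let La : Submodule K (Module.End K V) :=
      { carrier := {y | y ∈ L ∧ y = Pu * y * P0 + P0 * y * Pv + Pv * y * Pu}
        zero_mem' := ⟨L.zero_mem, by simp⟩
        add_mem' := by
          rintro x y ⟨hx, hx'⟩ ⟨hy, hy'⟩
          refine ⟨L.add_mem hx hy, ?_⟩
          nth_rewrite 1 [hx', hy']
          noncomm_ring
        smul_mem' := by
          rintro c x ⟨hx, hx'⟩
          refine ⟨L.smul_mem c hx, ?_⟩
          nth_rewrite 1 [hx']
          simp only [mul_smul_comm, smul_mul_assoc, smul_add] }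
    let Lb : Submodule K (Module.End K V) :=
      { carrier := {y | y ∈ L ∧ y = P0 * y * Pu + Pv * y * P0 + Pu * y * Pv}
        zero_mem' := ⟨L.zero_mem, by simp⟩
        add_mem' := by
          rintro x y ⟨hx, hx'⟩ ⟨hy, hy'⟩
          refine ⟨L.add_mem hx hy, ?_⟩
          nth_rewrite 1 [hx', hy']
          noncomm_ring
        smul_mem' := by
          rintro c x ⟨hx, hx'⟩
          refine ⟨L.smul_mem c hx, ?_⟩
          nth_rewrite 1 [hx']
          simp only [mul_smul_comm, smul_mul_assoc, smul_add] }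
    have memA : ∀ y, y ∈ La ↔ y ∈ L ∧ y = Pu * y * P0 + P0 * y * Pv + Pv * y * Pu :=
      fun y => Iff.rfl
    have memB : ∀ y, y ∈ Lb ↔ y ∈ L ∧ y = P0 * y * Pu + Pv * y * P0 + Pu * y * Pv :=
      fun y => Iff.rfl
    have apA : ∀ y ∈ La, ∀ t, y t = Pu (y (P0 t)) + P0 (y (Pv t)) + Pv (y (Pu t)) := by
      intro y hy t
      exact LinearMap.congr_fun ((memA y).mp hy).2 t
    have apB : ∀ y ∈ Lb, ∀ t, y t = P0 (y (Pu t)) + Pv (y (P0 t)) + Pu (y (Pv t)) := by
      intro y hy t
      exact LinearMap.congr_fun ((memB y).mp hy).2 t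
    have p0u : P0 u = 0 := by
      have := LinearMap.congr_fun D.m0u u
      rw [Module.End.mul_apply, D.uu] at this
      exact this
    have p0v : P0 v = 0 := by
      have := LinearMap.congr_fun D.m0v v
      rw [Module.End.mul_apply, D.vv] at this
      exact this
    by_cases hAi : ∃ y ∈ La, y ≠ 0 ∧ Pv (y u) = 0
    · obtain ⟨y, hy, hy0, hyu⟩ := hAi
      refine fin1 y ((memA y).mp hy).1 hy0 ?_
      have h4 : Pv * y * Pu = 0 := by
        ext t
        obtain ⟨k, hk⟩ := D.ku t
        rw [Module.End.mul_apply, Module.End.mul_apply, hk, map_smul, map_smul, hyu, smul_zero]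
        rfl
      have h5 := ((memA y).mp hy).2
      rwa [h4, add_zero] at h5
    by_cases hBi : ∃ y ∈ Lb, y ≠ 0 ∧ Pu (y v) = 0
    · obtain ⟨y, hy, hy0, hyv⟩ := hBi
      refine fin2 y ((memB y).mp hy).1 hy0 ?_
      have h4 : Pu * y * Pv = 0 := by
        ext t
        obtain ⟨k, hk⟩ := D.kv t
        rw [Module.End.mul_apply, Module.End.mul_apply, hk, map_smul, map_smul, hyv, smul_zero]
        rfl
      have h5 := ((memB y).mp hy).2
      rw [h4, add_zero, add_comm] at h5
      exact h5
    exfalso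
    push Not at hAi hBi
    have fA : finrank K La ≤ 1 := by
      let f : La →ₗ[K] (Submodule.span K ({v} : Set V)) :=
        { toFun := fun y => ⟨Pv ((y : Module.End K V) u), by
            obtain ⟨k, hk⟩ := D.kv ((y : Module.End K V) u)
            rw [hk]
            exact Submodule.smul_mem _ _ (Submodule.mem_span_singleton_self v)⟩
          map_add' := by
            intro x y
            apply Subtype.ext
            show Pv (((x : Module.End K V) + (y : Module.End K V)) u) = _
            rw [LinearMap.add_apply, map_add]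
            rfl
          map_smul' := by
            intro c x
            apply Subtype.ext
            show Pv ((c • (x : Module.End K V)) u) = _
            rw [LinearMap.smul_apply, map_smul]
            rfl }
      have hf : Function.Injective f := by
        rw [← LinearMap.ker_eq_bot, LinearMap.ker_eq_bot']
        intro y hy
        by_contra hne
        refine hAi y y.2 (fun h => hne (Subtype.ext h)) ?_
        exact congrArg Subtype.val hy
      refine (LinearMap.finrank_le_finrank_of_injective hf).trans ?_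
      rw [finrank_span_singleton D.v0]
    have fB : finrank K Lb ≤ 1 := by
      let f : Lb →ₗ[K] (Submodule.span K ({u} : Set V)) :=
        { toFun := fun y => ⟨Pu ((y : Module.End K V) v), by
            obtain ⟨k, hk⟩ := D.ku ((y : Module.End K V) v)
            rw [hk]
            exact Submodule.smul_mem _ _ (Submodule.mem_span_singleton_self u)⟩
          map_add' := by
            intro x y
            apply Subtype.ext
            show Pu (((x : Module.End K V) + (y : Module.End K V)) v) = _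
            rw [LinearMap.add_apply, map_add]
            rfl
          map_smul' := by
            intro c x
            apply Subtype.ext
            show Pu ((c • (x : Module.End K V)) v) = _
            rw [LinearMap.smul_apply, map_smul]
            rfl }
      have hf : Function.Injective f := by
        rw [← LinearMap.ker_eq_bot, LinearMap.ker_eq_bot']
        intro y hy
        by_contra hne
        refine hBi y y.2 (fun h => hne (Subtype.ext h)) ?_
        exact congrArg Subtype.val hy
      refine (LinearMap.finrank_le_finrank_of_injective hf).trans ?_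
      rw [finrank_span_singleton D.u0]
    -- the stable subspace
    let evu : Module.End K V →ₗ[K] V := LinearMap.applyₗ u
    let evv : Module.End K V →ₗ[K] V := LinearMap.applyₗ v
    obtain ⟨W, hW⟩ : ∃ W, W = Submodule.span K ({u} : Set V) ⊔ Submodule.span K ({v} : Set V) ⊔
        (La.map evv ⊔ Lb.map evu) := ⟨_, rfl⟩
    have Wu : ∀ k : K, k • u ∈ W := by
      intro k
      rw [hW]
      exact Submodule.mem_sup_left (Submodule.mem_sup_left
        (Submodule.smul_mem _ _ (Submodule.mem_span_singleton_self u)))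
    have Wv : ∀ k : K, k • v ∈ W := by
      intro k
      rw [hW]
      exact Submodule.mem_sup_left (Submodule.mem_sup_right
        (Submodule.smul_mem _ _ (Submodule.mem_span_singleton_self v)))
    have WA : ∀ y ∈ La, y v ∈ W := by
      intro y hy
      rw [hW]
      exact Submodule.mem_sup_right (Submodule.mem_sup_left ⟨y, hy, rfl⟩)
    have WB : ∀ y ∈ Lb, y u ∈ W := by
      intro y hy
      rw [hW]
      exact Submodule.mem_sup_right (Submodule.mem_sup_right ⟨y, hy, rfl⟩)
    have hrank : finrank K W ≤ 4 := by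
      rw [hW]
      have g1 := Submodule.finrank_add_le_finrank_add_finrank
        (Submodule.span K ({u} : Set V) ⊔ Submodule.span K ({v} : Set V)) (La.map evv ⊔ Lb.map evu)
      have g2 := Submodule.finrank_add_le_finrank_add_finrank
        (Submodule.span K ({u} : Set V)) (Submodule.span K ({v} : Set V))
      have g3 := Submodule.finrank_add_le_finrank_add_finrank (La.map evv) (Lb.map evu)
      have g4 := Submodule.finrank_map_le evv La
      have g5 := Submodule.finrank_map_le evu Lb
      rw [finrank_span_singleton D.u0, finrank_span_singleton D.v0] at g2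
      omega
    -- the components of x
    have dec : ∀ x ∈ L, ∃ z ∈ L, ∃ y ∈ La, ∃ y' ∈ Lb, x = z + y + y' ∧
        z = P0 * z * P0 + Pu * z * Pu + Pv * z * Pv := by
      intro x hx
      refine ⟨_, hC x hx, _, ⟨hA x hx, ?_⟩, _, ⟨hB x hx, ?_⟩, ?_, ?_⟩
      · simp only [mul_add, add_mul, mul_assoc]
        simp only [← mul_assoc, D.idu, D.idv, D.id0, D.mu0, D.mv0, D.muv, D.mvu, D.m0u, D.m0v,
          zero_mul, zero_add, add_zero]
      · simp only [mul_add, add_mul, mul_assoc]
        simp only [← mul_assoc, D.idu, D.idv, D.id0, D.mu0, D.mv0, D.muv, D.mvu, D.m0u, D.m0v,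
          zero_mul, zero_add, add_zero]
      · have : x = (P0 + Pu + Pv) * x * (P0 + Pu + Pv) := by rw [D.sum, one_mul, mul_one]
        nth_rewrite 1 [this]
        noncomm_ring
      · simp only [mul_add, add_mul, mul_assoc]
        simp only [← mul_assoc, D.idu, D.idv, D.id0, D.mu0, D.mv0, D.muv, D.mvu, D.m0u, D.m0v,
          zero_mul, zero_add, add_zero]
    have brA : ∀ z ∈ L, z = P0 * z * P0 + Pu * z * Pu + Pv * z * Pv → ∀ y ∈ La,
        z * y - y * z ∈ La := by
      intro z hz hzd y hy
      refine (memA _).mpr ⟨hbr z hz y ((memA y).mp hy).1, ?_⟩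
      obtain ⟨z0, hz0⟩ : ∃ z0, z = P0 * z0 * P0 + Pu * z0 * Pu + Pv * z0 * Pv := ⟨z, hzd⟩
      obtain ⟨y0, hy0⟩ : ∃ y0, y = Pu * y0 * P0 + P0 * y0 * Pv + Pv * y0 * Pu :=
        ⟨y, ((memA y).mp hy).2⟩
      rw [hz0, hy0]
      simp only [mul_add, add_mul, mul_sub, sub_mul, mul_assoc]
      simp only [← mul_assoc, D.idu, D.idv, D.id0, D.mu0, D.mv0, D.muv, D.mvu, D.m0u, D.m0v,
        zero_mul, zero_add, add_zero]
      simp only [mul_assoc, mul_zero, zero_add, add_zero]
      abel
    have brB : ∀ z ∈ L, z = P0 * z * P0 + Pu * z * Pu + Pv * z * Pv → ∀ y ∈ Lb,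
        z * y - y * z ∈ Lb := by
      intro z hz hzd y hy
      refine (memB _).mpr ⟨hbr z hz y ((memB y).mp hy).1, ?_⟩
      obtain ⟨z0, hz0⟩ : ∃ z0, z = P0 * z0 * P0 + Pu * z0 * Pu + Pv * z0 * Pv := ⟨z, hzd⟩
      obtain ⟨y0, hy0⟩ : ∃ y0, y = P0 * y0 * Pu + Pv * y0 * P0 + Pu * y0 * Pv :=
        ⟨y, ((memB y).mp hy).2⟩
      rw [hz0, hy0]
      simp only [mul_add, add_mul, mul_sub, sub_mul, mul_assoc]
      simp only [← mul_assoc, D.idu, D.idv, D.id0, D.mu0, D.mv0, D.muv, D.mvu, D.m0u, D.m0v,
        zero_mul, zero_add, add_zero]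
      simp only [mul_assoc, mul_zero, zero_add, add_zero]
      abel
    have zu : ∀ z : Module.End K V, z = P0 * z * P0 + Pu * z * Pu + Pv * z * Pv →
        ∃ k : K, z u = k • u := by
      intro z hz
      obtain ⟨k, hk⟩ := D.ku (z u)
      refine ⟨k, ?_⟩
      have h4 : z u = P0 (z (P0 u)) + Pu (z (Pu u)) + Pv (z (Pv u)) := LinearMap.congr_fun hz u
      simp only [p0u, D.uu, D.vu, map_zero, zero_add, add_zero] at h4
      rw [hk] at h4
      exact h4
    have zv : ∀ z : Module.End K V, z = P0 * z * P0 + Pu * z * Pu + Pv * z * Pv →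
        ∃ k : K, z v = k • v := by
      intro z hz
      obtain ⟨k, hk⟩ := D.kv (z v)
      refine ⟨k, ?_⟩
      have h4 : z v = P0 (z (P0 v)) + Pu (z (Pu v)) + Pv (z (Pv v)) := LinearMap.congr_fun hz v
      simp only [p0v, D.vv, D.uv, map_zero, zero_add, add_zero] at h4
      rw [hk] at h4
      exact h4
    have Au : ∀ y ∈ La, ∃ k : K, y u = k • v := by
      intro y hy
      obtain ⟨k, hk⟩ := D.kv (y u)
      refine ⟨k, ?_⟩
      have h4 := apA y hy u
      simp only [p0u, D.uu, D.vu, map_zero, zero_add, add_zero] at h4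
      rw [hk] at h4
      exact h4
    have Bv : ∀ y ∈ Lb, ∃ k : K, y v = k • u := by
      intro y hy
      obtain ⟨k, hk⟩ := D.ku (y v)
      refine ⟨k, ?_⟩
      have h4 := apB y hy v
      simp only [p0v, D.vv, D.uv, map_zero, zero_add, add_zero] at h4
      rw [hk] at h4
      exact h4
    have Av : ∀ y ∈ La, y v = P0 (y v) := by
      intro y hy
      have h4 := apA y hy v
      simp only [p0v, D.vv, D.uv, map_zero, zero_add, add_zero] at h4
      exact h4
    have Bu : ∀ y ∈ Lb, y u = P0 (y u) := by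
      intro y hy
      have h4 := apB y hy u
      simp only [p0u, D.uu, D.vu, map_zero, zero_add, add_zero] at h4
      exact h4
    have A0 : ∀ y ∈ La, ∀ t, ∃ k : K, y (P0 t) = k • u := by
      intro y hy t
      obtain ⟨k, hk⟩ := D.ku (y (P0 t))
      refine ⟨k, ?_⟩
      have h4 := apA y hy (P0 t)
      have h5 : P0 (P0 t) = P0 t := LinearMap.congr_fun D.id0 t
      simp only [h5, D.pu, D.pv, map_zero, zero_add, add_zero] at h4
      rw [hk] at h4
      exact h4
    have B0 : ∀ y ∈ Lb, ∀ t, ∃ k : K, y (P0 t) = k • v := by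
      intro y hy t
      obtain ⟨k, hk⟩ := D.kv (y (P0 t))
      refine ⟨k, ?_⟩
      have h4 := apB y hy (P0 t)
      have h5 : P0 (P0 t) = P0 t := LinearMap.congr_fun D.id0 t
      simp only [h5, D.pu, D.pv, map_zero, zero_add, add_zero] at h4
      rw [hk] at h4
      exact h4
    have stab : ∀ x ∈ L, ∀ w ∈ W, x w ∈ W := by
      intro x hx w hw
      obtain ⟨z, hz, y, hy, y', hy', hxe, hzd⟩ := dec x hx
      have key : W ≤ W.comap x := by
        nth_rewrite 1 [hW]
        refine sup_le (sup_le ?_ ?_) (sup_le ?_ ?_)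
        · refine (Submodule.span_singleton_le_iff_mem _ _).2 ?_
          show x u ∈ W
          obtain ⟨k1, hk1⟩ := zu z hzd
          obtain ⟨k2, hk2⟩ := Au y hy
          rw [hxe, LinearMap.add_apply, LinearMap.add_apply, hk1, hk2]
          exact W.add_mem (W.add_mem (Wu _) (Wv _)) (WB y' hy')
        · refine (Submodule.span_singleton_le_iff_mem _ _).2 ?_
          show x v ∈ W
          obtain ⟨k1, hk1⟩ := zv z hzd
          obtain ⟨k2, hk2⟩ := Bv y' hy'
          rw [hxe, LinearMap.add_apply, LinearMap.add_apply, hk1, hk2]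
          exact W.add_mem (W.add_mem (Wv _) (WA y hy)) (Wu _)
        · rintro _ ⟨y1, hy1, rfl⟩
          show x (y1 v) ∈ W
          obtain ⟨k1, hk1⟩ := zv z hzd
          obtain ⟨k2, hk2⟩ := A0 y hy (y1 v)
          obtain ⟨k3, hk3⟩ := B0 y' hy' (y1 v)
          rw [← Av y1 hy1] at hk2 hk3
          have h4 : z (y1 v) = (z * y1 - y1 * z) v + k1 • y1 v := by
            rw [LinearMap.sub_apply, Module.End.mul_apply, Module.End.mul_apply, hk1, map_smul,
              sub_add_cancel]
          rw [hxe, LinearMap.add_apply, LinearMap.add_apply, hk2, hk3, h4]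
          exact W.add_mem (W.add_mem (W.add_mem (WA _ (brA z hz hzd y1 hy1))
            (W.smul_mem _ (WA y1 hy1))) (Wu _)) (Wv _)
        · rintro _ ⟨y1, hy1, rfl⟩
          show x (y1 u) ∈ W
          obtain ⟨k1, hk1⟩ := zu z hzd
          obtain ⟨k2, hk2⟩ := A0 y hy (y1 u)
          obtain ⟨k3, hk3⟩ := B0 y' hy' (y1 u)
          rw [← Bu y1 hy1] at hk2 hk3
          have h4 : z (y1 u) = (z * y1 - y1 * z) u + k1 • y1 u := by
            rw [LinearMap.sub_apply, Module.End.mul_apply, Module.End.mul_apply, hk1, map_smul,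
              sub_add_cancel]
          rw [hxe, LinearMap.add_apply, LinearMap.add_apply, hk2, hk3, h4]
          exact W.add_mem (W.add_mem (W.add_mem (WB _ (brB z hz hzd y1 hy1))
            (W.smul_mem _ (WB y1 hy1))) (Wu _)) (Wv _)
      exact key hw
    rcases hirr W stab with h | h
    · have h4 := Wu 1
      rw [one_smul, h, Submodule.mem_bot] at h4
      exact D.u0 h4
    · rw [h, finrank_top] at hrank
      omega
  · -- order not three
    have h3' : a⁻¹ * a⁻¹ ≠ a := by
      intro h
      apply h3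
      have e : a * a * a = 1 := by
        nth_rewrite 3 [← h]
        rw [mul_assoc, ← mul_assoc a a⁻¹, mul_inv_cancel₀ ha, one_mul, mul_inv_cancel₀ ha]
      exact eq_inv_of_mul_eq_one_left e
    have a2 : a * a ≠ a := fun h => a1 (mul_left_cancel₀ ha (by rw [h, mul_one]))
    have a2' : a⁻¹ * a⁻¹ ≠ a⁻¹ := fun h => ai1 (mul_left_cancel₀ ainv (by rw [h, mul_one]))
    have hA : ∀ x ∈ L, Pu * x * P0 + P0 * x * Pv ∈ L := by
      intro x hx
      have h4 := aeval_mem (Tc s s') L hT ((Polynomial.X - Polynomial.C 1) *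
        (Polynomial.X - Polynomial.C a⁻¹) * (Polynomial.X - Polynomial.C (a * a)) *
        (Polynomial.X - Polynomial.C (a⁻¹ * a⁻¹))) x hx
      rw [D.comp ha] at h4
      simp only [Polynomial.eval_mul, Polynomial.eval_sub, Polynomial.eval_X, Polynomial.eval_C,
        sub_self, zero_mul, mul_zero, zero_smul, zero_add, add_zero] at h4
      have h5 : (a - 1) * (a - a⁻¹) * (a - a * a) * (a - a⁻¹ * a⁻¹) ≠ 0 :=
        mul_ne_zero (mul_ne_zero (mul_ne_zero (sub_ne_zero.mpr a1) (sub_ne_zero.mpr ha2))
          (sub_ne_zero.mpr a2.symm)) (sub_ne_zero.mpr h3'.symm)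
      have h6 := L.smul_mem ((a - 1) * (a - a⁻¹) * (a - a * a) * (a - a⁻¹ * a⁻¹))⁻¹ h4
      rwa [smul_smul, inv_mul_cancel₀ h5, one_smul] at h6
    have hB : ∀ x ∈ L, P0 * x * Pu + Pv * x * P0 ∈ L := by
      intro x hx
      have h4 := aeval_mem (Tc s s') L hT ((Polynomial.X - Polynomial.C 1) *
        (Polynomial.X - Polynomial.C a) * (Polynomial.X - Polynomial.C (a * a)) *
        (Polynomial.X - Polynomial.C (a⁻¹ * a⁻¹))) x hx
      rw [D.comp ha] at h4
      simp only [Polynomial.eval_mul, Polynomial.eval_sub, Polynomial.eval_X, Polynomial.eval_C,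
        sub_self, zero_mul, mul_zero, zero_smul, zero_add, add_zero] at h4
      have h5 : (a⁻¹ - 1) * (a⁻¹ - a) * (a⁻¹ - a * a) * (a⁻¹ - a⁻¹ * a⁻¹) ≠ 0 :=
        mul_ne_zero (mul_ne_zero (mul_ne_zero (sub_ne_zero.mpr ai1) (sub_ne_zero.mpr ha2.symm))
          (sub_ne_zero.mpr fun h => h3 h.symm)) (sub_ne_zero.mpr a2'.symm)
      have h6 := L.smul_mem ((a⁻¹ - 1) * (a⁻¹ - a) * (a⁻¹ - a * a) * (a⁻¹ - a⁻¹ * a⁻¹))⁻¹ h4
      rwa [smul_smul, inv_mul_cancel₀ h5, one_smul] at h6
    by_cases h4 : ∃ x ∈ L, P0 (x v) ≠ 0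
    · obtain ⟨x, hx, hxv⟩ := h4
      refine fin1 _ (hA x hx) ?_ ?_
      · intro h
        have h5 := LinearMap.congr_fun h v
        have h6 : Pu (x (P0 v)) + P0 (x (Pv v)) = 0 := h5
        have p0v : P0 v = 0 := by
          have := LinearMap.congr_fun D.m0v v
          rw [Module.End.mul_apply, D.vv] at this
          exact this
        rw [p0v, D.vv, map_zero, map_zero, zero_add] at h6
        exact hxv h6
      · simp only [mul_add, add_mul, mul_assoc]
        simp only [← mul_assoc, D.idu, D.idv, D.id0, D.mu0, D.mv0, D.muv, D.mvu, D.m0u, D.m0v,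
          zero_mul, zero_add, add_zero]
    by_cases h5 : ∃ x ∈ L, P0 (x u) ≠ 0
    · obtain ⟨x, hx, hxu⟩ := h5
      have h6 := hB x hx
      rw [add_comm] at h6
      refine fin2 _ h6 ?_ ?_
      · intro h
        have h7 := LinearMap.congr_fun h u
        have h8 : Pv (x (P0 u)) + P0 (x (Pu u)) = 0 := h7
        have p0u : P0 u = 0 := by
          have := LinearMap.congr_fun D.m0u u
          rw [Module.End.mul_apply, D.uu] at this
          exact this
        rw [p0u, D.uu, map_zero, map_zero, zero_add] at h8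
        exact hxu h8
      · simp only [mul_add, add_mul, mul_assoc]
        simp only [← mul_assoc, D.idu, D.idv, D.id0, D.mu0, D.mv0, D.muv, D.mvu, D.m0u, D.m0v,
          zero_mul, zero_add, add_zero]
    exfalso
    push Not at h4 h5
    have hst : ∀ x ∈ L, ∀ w ∈ Submodule.span K ({u} : Set V) ⊔ Submodule.span K ({v} : Set V),
        x w ∈ Submodule.span K ({u} : Set V) ⊔ Submodule.span K ({v} : Set V) := by
      intro x hx w hw
      obtain ⟨W, hW⟩ : ∃ W, W = Submodule.span K ({u} : Set V) ⊔ Submodule.span K ({v} : Set V) :=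
        ⟨_, rfl⟩
      rw [← hW] at hw ⊢
      have Wu : ∀ k : K, k • u ∈ W := by
        intro k
        rw [hW]
        exact Submodule.mem_sup_left (Submodule.smul_mem _ _ (Submodule.mem_span_singleton_self u))
      have Wv : ∀ k : K, k • v ∈ W := by
        intro k
        rw [hW]
        exact Submodule.mem_sup_right (Submodule.smul_mem _ _ (Submodule.mem_span_singleton_self v))
      have key : W ≤ W.comap x := by
        nth_rewrite 1 [hW]
        refine sup_le ?_ ?_
        · refine (Submodule.span_singleton_le_iff_mem _ _).2 ?_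
          show x u ∈ W
          obtain ⟨k1, hk1⟩ := D.ku (x u)
          obtain ⟨k2, hk2⟩ := D.kv (x u)
          rw [D.split (x u), h5 x hx, hk1, hk2, zero_add]
          exact W.add_mem (Wu _) (Wv _)
        · refine (Submodule.span_singleton_le_iff_mem _ _).2 ?_
          show x v ∈ W
          obtain ⟨k1, hk1⟩ := D.ku (x v)
          obtain ⟨k2, hk2⟩ := D.kv (x v)
          rw [D.split (x v), h4 x hx, hk1, hk2, zero_add]
          exact W.add_mem (Wu _) (Wv _)
      exact key hw
    have g2 := Submodule.finrank_add_le_finrank_add_finrank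
      (Submodule.span K ({u} : Set V)) (Submodule.span K ({v} : Set V))
    rw [finrank_span_singleton D.u0, finrank_span_singleton D.v0] at g2
    rcases hirr _ hst with h | h
    · have h6 : u ∈ Submodule.span K ({u} : Set V) ⊔ Submodule.span K ({v} : Set V) :=
        Submodule.mem_sup_left (Submodule.mem_span_singleton_self u)
      rw [h, Submodule.mem_bot] at h6
      exact D.u0 h6
    · rw [h, finrank_top] at g2
      omega

/-- **Lemma R2.** Let L be an irreducible Lie space of maps skew for a symplectic form on V, dim V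
at least 6, and let s normalise L, with an eigenspace of codimension two and two further
eigenvectors with different eigenvalues. Then some nonzero element of L has square zero and rank at
most two. -/
theorem r2 (ω : LinearMap.BilinForm K V) (hω : ω.Nondegenerate) (halt : ∀ x y, ω x y = - ω y x)
    (L : Submodule K (Module.End K V)) (hbr : ∀ x ∈ L, ∀ y ∈ L, x * y - y * x ∈ L)
    (hskew : ∀ x ∈ L, ∀ v w, ω (x v) w = - ω v (x w))
    (hirr : ∀ W : Submodule K V, (∀ x ∈ L, ∀ v ∈ W, x v ∈ W) → W = ⊥ ∨ W = ⊤)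
    (s : V ≃ₗ[K] V)
    (hs : ∀ x ∈ L, (s : Module.End K V) * x * (s.symm : Module.End K V) ∈ L)
    {a b c : K} {u v : V} (hu : u ≠ 0) (hv : v ≠ 0) (su : s u = a • u) (sv : s v = b • v)
    (hac : a ≠ c) (hbc : b ≠ c) (hab : a ≠ b)
    (hdim : finrank K (Module.End.eigenspace (s : Module.End K V) c) + 2 = finrank K V)
    (hd : 4 < finrank K V) : ∃ y ∈ L, y ≠ 0 ∧ y * y = 0 ∧ rk y ≤ 2 := by
  have hnt : Nontrivial V := ⟨⟨u, 0, hu⟩⟩
  obtain ⟨E, hE⟩ : ∃ E, E = Module.End.eigenspace (s : Module.End K V) c := ⟨_, rfl⟩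
  rw [← hE] at hdim
  have memE : ∀ x, x ∈ E ↔ s x = c • x := by
    intro x
    rw [hE, Module.End.mem_eigenspace_iff]
    rfl
  have self0 : ∀ x, ω x x = 0 := by
    intro x
    have h := halt x x
    have h2 : (2 : K) * ω x x = 0 := by linear_combination h
    exact (mul_eq_zero.mp h2).resolve_left two_ne_zero
  have ss : (s.symm : Module.End K V) * (s : Module.End K V) = 1 := by
    ext t
    exact s.symm_apply_apply t
  obtain ⟨χ, hχ⟩ := simil ω hω L hskew hirr (s : Module.End K V) (s.symm : Module.End K V) ss hs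
  have hχ' : ∀ x y, ω (s x) (s y) = χ * ω x y := hχ
  -- the eigenspace is not isotropic
  have hniso : ∃ x ∈ E, ∃ y ∈ E, ω x y ≠ 0 := by
    by_contra hne
    push Not at hne
    have hle : E ≤ ω.orthogonal E := by
      intro y hy
      rw [LinearMap.BilinForm.mem_orthogonal_iff]
      intro x hx
      exact hne x hx y hy
    have hrefl : ω.IsRefl := by
      intro x y h
      rw [halt, h, neg_zero]
    have h1 := LinearMap.BilinForm.finrank_orthogonal hω E
    have h2 := Submodule.finrank_mono hle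
    omega
  have hc0 : c ≠ 0 := by
    rintro rfl
    obtain ⟨x, hx, y, hy, hxy⟩ := hniso
    apply hxy
    have h1 : x = 0 := by
      apply s.injective
      rw [(memE x).mp hx, zero_smul, map_zero]
    rw [h1, map_zero, LinearMap.zero_apply]
  have ha0 : a ≠ 0 := by
    rintro rfl
    apply hu
    apply s.injective
    rw [su, zero_smul, map_zero]
  have hcc : c * c = χ := by
    obtain ⟨x, hx, y, hy, hxy⟩ := hniso
    have h1 := hχ' x y
    rw [(memE x).mp hx, (memE y).mp hy, map_smul, map_smul, LinearMap.smul_apply, smul_eq_mul,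
      smul_eq_mul, ← mul_assoc] at h1
    exact mul_right_cancel₀ hxy h1
  have hEu : ∀ x ∈ E, ω x u = 0 := by
    intro x hx
    have h1 := hχ' x u
    rw [(memE x).mp hx, su, map_smul, map_smul, LinearMap.smul_apply, smul_eq_mul, smul_eq_mul,
      ← hcc] at h1
    have h2 : c * (a - c) * ω x u = 0 := by linear_combination h1
    exact (mul_eq_zero.mp h2).resolve_left (mul_ne_zero hc0 (sub_ne_zero.mpr hac))
  have hEv : ∀ x ∈ E, ω x v = 0 := by
    intro x hx
    have h1 := hχ' x v
    rw [(memE x).mp hx, sv, map_smul, map_smul, LinearMap.smul_apply, smul_eq_mul, smul_eq_mul,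
      ← hcc] at h1
    have h2 : c * (b - c) * ω x v = 0 := by linear_combination h1
    exact (mul_eq_zero.mp h2).resolve_left (mul_ne_zero hc0 (sub_ne_zero.mpr hbc))
  -- the decomposition
  have hdec : ∀ t : V, ∃ x ∈ E, ∃ α β : K, t = x + α • u + β • v := by
    let Φ : (E × K × K) →ₗ[K] V :=
      E.subtype.coprod ((LinearMap.toSpanSingleton K V u).coprod (LinearMap.toSpanSingleton K V v))
    have hΦ : ∀ (x : E) (α β : K), Φ (x, α, β) = (x : V) + (α • u + β • v) := fun x α β => rfl
    have hinj : Function.Injective Φ := by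
      rw [← LinearMap.ker_eq_bot, LinearMap.ker_eq_bot']
      rintro ⟨⟨x, hx⟩, α, β⟩ h
      rw [hΦ] at h
      have hx' := (memE x).mp hx
      have e1 : (α * (a - c)) • u + (β * (b - c)) • v = 0 := by
        have h1 := congrArg s h
        rw [map_add, map_add, map_smul, map_smul, hx', su, sv, map_zero] at h1
        have h2 : c • (x + (α • u + β • v)) = 0 := by rw [h, smul_zero]
        have h3 : (α * (a - c)) • u + (β * (b - c)) • v =
            (c • x + (α • a • u + β • b • v)) - c • (x + (α • u + β • v)) := by module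
        rw [h3, h1, h2, sub_zero]
      have e2 : (β * (b - c) * (b - a)) • v = 0 := by
        have h1 := congrArg s e1
        rw [map_add, map_smul, map_smul, su, sv, map_zero] at h1
        have h3 : (β * (b - c) * (b - a)) • v =
            ((α * (a - c)) • a • u + (β * (b - c)) • b • v) -
              a • ((α * (a - c)) • u + (β * (b - c)) • v) := by module
        rw [h3, h1, e1, smul_zero, sub_zero]
      have hβ : β = 0 := by
        have h1 := (smul_eq_zero.mp e2).resolve_right hv
        have h2 := (mul_eq_zero.mp h1).resolve_right (sub_ne_zero.mpr hab.symm)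
        exact (mul_eq_zero.mp h2).resolve_right (sub_ne_zero.mpr hbc)
      have hα : α = 0 := by
        rw [hβ, zero_mul, zero_smul, add_zero] at e1
        have h1 := (smul_eq_zero.mp e1).resolve_right hu
        exact (mul_eq_zero.mp h1).resolve_right (sub_ne_zero.mpr hac)
      have hx0 : x = 0 := by
        rw [hα, hβ, zero_smul, zero_smul, add_zero, add_zero] at h
        exact h
      subst hx0 hα hβ
      rfl
    have hsurj : Function.Surjective Φ := by
      refine (LinearMap.injective_iff_surjective_of_finrank_eq_finrank ?_).mp hinj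
      rw [Module.finrank_prod, Module.finrank_prod, Module.finrank_self]
      exact hdim
    intro t
    obtain ⟨⟨x, α, β⟩, h⟩ := hsurj t
    exact ⟨x, x.2, α, β, by rw [← h, hΦ, add_assoc]⟩
  have hκ : ω u v ≠ 0 := by
    intro h0
    apply hu
    have h1 : ω u = 0 := by
      ext t
      obtain ⟨x, hx, α, β, rfl⟩ := hdec t
      rw [map_add, map_add, map_smul, map_smul, self0, h0, smul_zero, smul_zero, add_zero, add_zero,
        halt, hEu x hx, neg_zero, LinearMap.zero_apply]
    by_contra hne
    obtain ⟨w, hw⟩ := exists_pair hω hne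
    rw [h1] at hw
    exact zero_ne_one hw
  have hab' : a * b = c * c := by
    have h1 := hχ' u v
    rw [su, sv, map_smul, map_smul, LinearMap.smul_apply, smul_eq_mul, smul_eq_mul, ← mul_assoc] at h1
    rw [hcc, mul_comm a b]
    exact mul_right_cancel₀ hκ h1
  -- the projections
  let Pu : Module.End K V := ((ω u v)⁻¹ • (ω.flip v)).smulRight u
  let Pv : Module.End K V := ((ω u v)⁻¹ • (ω u)).smulRight v
  have hPu : ∀ x ∈ E, ∀ α β : K, Pu (x + α • u + β • v) = α • u := by
    intro x hx α β
    show ((ω u v)⁻¹ * ω (x + α • u + β • v) v) • u = α • u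
    rw [map_add, map_add, map_smul, map_smul, LinearMap.add_apply, LinearMap.add_apply,
      LinearMap.smul_apply, LinearMap.smul_apply, hEv x hx, self0, smul_zero, add_zero, zero_add,
      smul_eq_mul, mul_comm α, ← mul_assoc, inv_mul_cancel₀ hκ, one_mul]
  have hPv : ∀ x ∈ E, ∀ α β : K, Pv (x + α • u + β • v) = β • v := by
    intro x hx α β
    show ((ω u v)⁻¹ * ω u (x + α • u + β • v)) • v = β • v
    rw [map_add, map_add, map_smul, map_smul, halt u x, hEu x hx, self0, smul_zero, neg_zero,
      zero_add, zero_add, smul_eq_mul, mul_comm β, ← mul_assoc, inv_mul_cancel₀ hκ, one_mul]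
  obtain ⟨P0, hP0⟩ : ∃ P0, P0 = 1 - Pu - Pv := ⟨_, rfl⟩
  have hP0' : ∀ x ∈ E, ∀ α β : K, P0 (x + α • u + β • v) = x := by
    intro x hx α β
    rw [hP0, LinearMap.sub_apply, LinearMap.sub_apply, Module.End.one_apply, hPu x hx, hPv x hx]
    abel
  have hbc' : (a * c⁻¹)⁻¹ = b * c⁻¹ := by
    rw [mul_inv, inv_inv]
    field_simp
    linear_combination -hab'
  have D : Dec ω (P0 + (a * c⁻¹) • Pu + (a * c⁻¹)⁻¹ • Pv) (P0 + (a * c⁻¹)⁻¹ • Pu + (a * c⁻¹) • Pv)
      P0 Pu Pv u v (a * c⁻¹) := by
    have zE : (0 : V) ∈ E := E.zero_mem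
    refine ⟨halt, ?_, hu, hv, ?_, ?_, ?_, ?_, ?_, ?_, ?_, ?_, rfl, rfl, ?_, ?_, hκ⟩
    · rw [hP0]; abel
    · have := hPu 0 zE 1 0
      rwa [zero_add, one_smul, zero_smul, add_zero] at this
    · have := hPv 0 zE 0 1
      rwa [zero_add, one_smul, zero_smul, zero_add] at this
    · intro t
      obtain ⟨x, hx, α, β, rfl⟩ := hdec t
      exact ⟨α, hPu x hx α β⟩
    · intro t
      obtain ⟨x, hx, α, β, rfl⟩ := hdec t
      exact ⟨β, hPv x hx α β⟩
    · intro t
      obtain ⟨x, hx, α, β, rfl⟩ := hdec t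
      have := hPu x hx 0 0
      rw [zero_smul, zero_smul, add_zero, add_zero] at this
      rw [hP0' x hx, this]
    · intro t
      obtain ⟨x, hx, α, β, rfl⟩ := hdec t
      have := hPv x hx 0 0
      rw [zero_smul, zero_smul, add_zero, add_zero] at this
      rw [hP0' x hx, this]
    · have := hPu 0 zE 0 1
      rwa [zero_add, one_smul, zero_smul, zero_add] at this
    · have := hPv 0 zE 1 0
      rwa [zero_add, one_smul, zero_smul, add_zero] at this
    · intro t
      obtain ⟨x, hx, α, β, rfl⟩ := hdec t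
      rw [hP0' x hx, hEu x hx]
    · intro t
      obtain ⟨x, hx, α, β, rfl⟩ := hdec t
      rw [hP0' x hx, hEv x hx]
  have es : P0 + (a * c⁻¹) • Pu + (a * c⁻¹)⁻¹ • Pv = c⁻¹ • (s : Module.End K V) := by
    ext t
    obtain ⟨x, hx, α, β, rfl⟩ := hdec t
    have h1 : (s : Module.End K V) (x + α • u + β • v) = c • x + (α * a) • u + (β * b) • v := by
      show s (x + α • u + β • v) = _
      rw [map_add, map_add, map_smul, map_smul, (memE x).mp hx, su, sv, smul_smul, smul_smul]
    rw [LinearMap.add_apply, LinearMap.add_apply, LinearMap.smul_apply, LinearMap.smul_apply,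
      LinearMap.smul_apply, h1, hP0' x hx, hPu x hx, hPv x hx, hbc', smul_add, smul_add, smul_smul,
      smul_smul, smul_smul, smul_smul, smul_smul, inv_mul_cancel₀ hc0, one_smul]
    module
  have es' : P0 + (a * c⁻¹)⁻¹ • Pu + (a * c⁻¹) • Pv = c • (s.symm : Module.End K V) := by
    ext t
    apply s.injective
    obtain ⟨x, hx, α, β, rfl⟩ := hdec t
    rw [LinearMap.add_apply, LinearMap.add_apply, LinearMap.smul_apply, LinearMap.smul_apply,
      LinearMap.smul_apply, hP0' x hx, hPu x hx, hPv x hx, hbc']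
    have h1 : s (c • (s.symm : Module.End K V) (x + α • u + β • v)) = c • (x + α • u + β • v) := by
      rw [map_smul]
      congr 1
      exact s.apply_symm_apply _
    rw [h1, map_add, map_add, map_smul, map_smul, map_smul, map_smul, (memE x).mp hx, su, sv]
    have h2 : b * c⁻¹ * a = c := by
      field_simp
      linear_combination hab'
    have h3 : a * c⁻¹ * b = c := by
      field_simp
      linear_combination hab'
    have h4 : (b * c⁻¹) • α • a • u = (c * α) • u := by
      rw [smul_smul, smul_smul]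
      congr 1
      linear_combination α * h2
    have h5 : (a * c⁻¹) • β • b • v = (c * β) • v := by
      rw [smul_smul, smul_smul]
      congr 1
      linear_combination β * h3
    rw [h4, h5, smul_add, smul_add, smul_smul, smul_smul]
  refine r2_aux ω L hbr hskew hirr D (mul_ne_zero ha0 (inv_ne_zero hc0)) ?_ ?_ hd
  · rw [hbc']
    intro h
    exact hab (mul_right_cancel₀ (inv_ne_zero hc0) h)
  · intro x hx
    rw [es, es', smul_mul_assoc, smul_mul_assoc, mul_smul_comm, smul_smul, inv_mul_cancel₀ hc0,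
      one_smul]
    exact hs x hx

end Pool.Agent.LM2
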