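import Pool.Agent.Lib_helper48.LM2.S4
import Pool.Agent.Lib_helper48.MR.S
import Pool.Agent.Lib_helper54.RM.NoHT
import Pool.Agent.Lib_helper54.RM.Clus

/-! The symplectic case: an element of square zero of rank at most two, and an element of the
normaliser with a large cluster of eigenvalues whose other clusters have one element. -/

set_option autoImplicit false
set_option linter.unusedSectionVars false

namespace Pool.Agent.LM2

open Module Pool.Agent.OT Pool.Agent.OU Pool.Agent.RM Pool.Agent.SJ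

attribute [local instance 100] LieRing.ofAssociativeRing

theorem not_exc {n r : ℕ} (h : r ≤ 2) : ¬ Pool.Agent.OT.Exc n r := by
  rintro (⟨t, h3, -, -, h4⟩ | ⟨k, h2, -, -, h4⟩)
  · have h5 : 2 ^ 3 ≤ 2 ^ t := Nat.pow_le_pow_right (by omega) h3
    have h6 : 2 ^ (t + 1) = 2 * 2 ^ t := by ring
    omega
  · have h6 : Nat.centralBinom 2 ≤ Nat.centralBinom k := by
      have h8 : Monotone Nat.centralBinom := by
        apply monotone_nat_of_le_succ
        intro n
        have h9 := Nat.succ_mul_centralBinom_succ n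
        have h10 : 0 < Nat.centralBinom n := Nat.centralBinom_pos n
        nlinarith
      exact h8 h2
    have h7 : Nat.centralBinom 2 = 6 := by decide
    have h8 : Nat.centralBinom k = (2 * k).choose k := rfl
    omega

variable {K : Type*} [Field K] [CharZero K] [IsAlgClosed K]
variable {g : Type*} [LieRing g] [LieAlgebra K g]
variable {V : Type*} [AddCommGroup V] [Module K V] [FiniteDimensional K V]
  [LieRingModule g V] [LieModule K g V] [LieModule.IsIrreducible K g V]

/-- In the symplectic case one cocharacter and one element of square zero of rank one or two are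
enough. -/
theorem onS_two {ω : LinearMap.BilinForm K V}
    (hω : ω.Nondegenerate) (halt : ∀ v w, ω v w = - ω w v)
    (hinv : ∀ (x : g) (v w : V), ω ⁅x, v⁆ w = - ω v ⁅x, w⁆) (h : g)
    (hh : ∀ v : V, ⁅h, ⁅h, v⁆⁆ = (1/4 : K) • v) (hns : ¬ ∃ c : K, ∀ v : V, ⁅h, v⁆ = c • v)
    (x : g) (hx : ∀ v : V, ⁅x, ⁅x, v⁆⁆ = 0) (hx0 : ∃ v : V, ⁅x, v⁆ ≠ 0)
    (hr : finrank K (LinearMap.range (LieModule.toEnd K g V x)) ≤ 2) :
    ∀ x : Module.End K V, Pool.Agent.OT.Sk ω x → ∃ y : g, LieModule.toEnd K g V y = x := by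
  have hnd : ∀ u : V, (∀ w, ω u w = 0) → u = 0 := fun u hu => by
    by_contra hne
    obtain ⟨w, hw⟩ := Pool.Agent.OT.exists_pair hω hne
    rw [hu w] at hw
    exact zero_ne_one hw
  exact condS_simple hω halt hinv (psimple_two V ω hnd halt hinv x hx hx0 hr) h hh hns
    (Or.inr (Or.inr ⟨x, hx, hx0, not_exc hr⟩))

/-- In the symplectic case one cocharacter and one element of the normaliser, more than half of
whose eigenvalues are in one cluster and whose other clusters have one element, are enough. -/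
theorem onS_mr {ω : LinearMap.BilinForm K V}
    (hω : ω.Nondegenerate) (halt : ∀ v w, ω v w = - ω w v)
    (hinv : ∀ (x : g) (v w : V), ω ⁅x, v⁆ w = - ω v ⁅x, w⁆) (h : g)
    (hh : ∀ v : V, ⁅h, ⁅h, v⁆⁆ = (1/4 : K) • v) (hns : ¬ ∃ c : K, ∀ v : V, ⁅h, v⁆ = c • v)
    {O : ValuationSubring K} {γ : V ≃ₗ[K] V} {c : K} {r : ℕ}
    (hγ : ∀ y : g, ∃ z : g, ∀ v : V, γ ⁅y, v⁆ = ⁅z, γ v⁆)
    (hc : c ∈ (γ : Module.End K V).charpoly.roots) (hr0 : 0 < r)
    (h1 : classSize O γ c + r = finrank K V)
    (hk : ∀ b ∈ (γ : Module.End K V).charpoly.roots, O.valuation c ≤ O.valuation (b - c) →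
      classSize O γ b ≤ 1) (hr : 2 * r < finrank K V) :
    ∀ x : Module.End K V, Pool.Agent.OT.Sk ω x → ∃ y : g, LieModule.toEnd K g V y = x := by
  obtain ⟨s, hs, hD, g1, g2, -⟩ := clus hγ hc hr0 h1 hk
  obtain ⟨y, ⟨x, rfl⟩, hy0, hyy, hrk⟩ := Pool.Agent.MR.mr_S ω hω halt
    (LieModule.toEnd K g V).range
    (by
      rintro _ ⟨x, rfl⟩ v w
      exact hinv x v w)
    (fun W hW => irr_of (K := K) (g := g) W (fun x v hv => hW _ ⟨x, rfl⟩ v hv))
    (s := s)
    (by
      rintro _ ⟨x, rfl⟩
      obtain ⟨z, hz⟩ := hs x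
      refine ⟨z, ?_⟩
      ext w
      have h1 := hz (s.symm w)
      rw [LinearEquiv.apply_symm_apply] at h1
      exact h1.symm)
    hD g1 g2 hr0 hr
  refine onS_two hω halt hinv h hh hns x (fun v => LinearMap.congr_fun hyy v) ?_ hrk
  by_contra hne
  push Not at hne
  exact hy0 (LinearMap.ext hne)

end Pool.Agent.LM2
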