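import Pool.Agent.Lib_helper48.OU.U24

/-! Nonzero elements of square zero; small dimension. -/

set_option autoImplicit false
set_option linter.unusedSectionVars false

namespace Pool.Agent.LM2

open Module Pool.Agent.OT Pool.Agent.OU

attribute [local instance 100] LieRing.ofAssociativeRing

variable {K : Type*} [Field K] [CharZero K]
variable {g : Type*} [LieRing g] [LieAlgebra K g]
variable {V : Type*} [AddCommGroup V] [Module K V] [FiniteDimensional K V]
  [LieRingModule g V] [LieModule K g V]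

/-- A nonzero element of square zero. -/
theorem exists_sq [LieModule.IsIrreducible K g V] (h : g)
    (hh : ∀ v : V, ⁅h, ⁅h, v⁆⁆ = (1/4 : K) • v) (hns : ¬ ∃ c : K, ∀ v : V, ⁅h, v⁆ = c • v) :
    ∃ x : g, (∀ v : V, ⁅x, ⁅x, v⁆⁆ = 0) ∧ ∃ v : V, ⁅x, v⁆ ≠ 0 := by
  obtain ⟨H, hH⟩ : ∃ H : Module.End K V, H = LieModule.toEnd K g V h := ⟨_, rfl⟩
  have hHv : ∀ v : V, ⁅h, v⁆ = H v := fun v => by rw [hH]; rfl
  have hHH : ∀ v : V, H (H v) = (1/4 : K) • v := fun v => by rw [← hHv, ← hHv]; exact hh v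
  have hX : ∀ (y : g) (v : V), ⁅⁅h, ⁅h, y⁆⁆ + ⁅h, y⁆, v⁆ =
      (2 : K) • (H ⁅y, (1/2 : K) • v - H v⁆ + (1/2 : K) • ⁅y, (1/2 : K) • v - H v⁆) := by
    intro y v
    simp only [add_lie, lie_lie, lie_sub, lie_smul, hHv, map_sub, map_smul, hHH]
    module
  by_cases hz : ∀ (y : g) (v : V), ⁅⁅h, ⁅h, y⁆⁆ + ⁅h, y⁆, v⁆ = 0
  · exfalso
    let W : Submodule K V := LinearMap.ker (H + (1/2 : K) • (1 : Module.End K V))
    have memW : ∀ v, v ∈ W ↔ H v + (1/2 : K) • v = 0 := fun v => by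
      rw [LinearMap.mem_ker]; rfl
    rcases irr_of (K := K) (g := g) W (fun y v hv => by
      rw [memW] at hv ⊢
      have h1 := hz y v
      rw [hX] at h1
      have h2 : (1/2 : K) • v - H v = v := by
        have : H v = -((1/2 : K) • v) := eq_neg_of_add_eq_zero_left hv
        rw [this]
        module
      rw [h2] at h1
      exact (smul_eq_zero.mp h1).resolve_left two_ne_zero) with h1 | h1
    · apply hns
      refine ⟨1/2, fun v => ?_⟩
      have h2 : H v - (1/2 : K) • v ∈ W := by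
        rw [memW, map_sub, map_smul, hHH]
        module
      rw [h1, Submodule.mem_bot] at h2
      rw [hHv]
      exact sub_eq_zero.mp h2
    · apply hns
      refine ⟨-(1/2), fun v => ?_⟩
      have h2 : v ∈ W := by rw [h1]; exact Submodule.mem_top
      rw [memW] at h2
      rw [hHv, neg_smul]
      exact eq_neg_of_add_eq_zero_left h2
  · push Not at hz
    obtain ⟨y, v, hv⟩ := hz
    refine ⟨_, fun w => ?_, v, hv⟩
    rw [hX, hX]
    have h1 : ∀ t : V, (1/2 : K) • ((2 : K) • (H t + (1/2 : K) • t)) -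
        H ((2 : K) • (H t + (1/2 : K) • t)) = 0 := by
      intro t
      rw [map_smul, map_add, map_smul, hHH]
      module
    rw [h1, lie_zero, map_zero, smul_zero, add_zero, smul_zero]

theorem rank_half (x : g) (hx : ∀ v : V, ⁅x, ⁅x, v⁆⁆ = 0) :
    2 * finrank K (LinearMap.range (LieModule.toEnd K g V x)) ≤ finrank K V := by
  have h1 : LinearMap.range (LieModule.toEnd K g V x) ≤
      LinearMap.ker (LieModule.toEnd K g V x) := by
    rintro _ ⟨v, rfl⟩
    exact hx v
  have h2 := Submodule.finrank_mono h1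
  have h3 := LinearMap.finrank_range_add_finrank_ker (LieModule.toEnd K g V x)
  omega

omit [CharZero K] in
theorem rank_pos {x : g} (h : ∃ v : V, ⁅x, v⁆ ≠ 0) :
    0 < finrank K (LinearMap.range (LieModule.toEnd K g V x)) := by
  refine Nat.pos_of_ne_zero fun h0 => ?_
  rw [Submodule.finrank_eq_zero, LinearMap.range_eq_bot] at h0
  obtain ⟨v, hv⟩ := h
  exact hv (LinearMap.congr_fun h0 v)

/-- Modules of dimension at most four. -/
theorem small_four [LieModule.IsIrreducible K g V] (hV : finrank K V ≤ 4) (h : g)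
    (hh : ∀ v : V, ⁅h, ⁅h, v⁆⁆ = (1/4 : K) • v) (hns : ¬ ∃ c : K, ∀ v : V, ⁅h, v⁆ = c • v) :
    ∃ x : g, (∀ v : V, ⁅x, ⁅x, v⁆⁆ = 0) ∧ (∃ v : V, ⁅x, v⁆ ≠ 0) ∧
      finrank K (LinearMap.range (LieModule.toEnd K g V x)) ≤ 2 := by
  obtain ⟨x, hx, v, hv⟩ := exists_sq (K := K) h hh hns
  have h1 := rank_half (K := K) x hx
  exact ⟨x, hx, ⟨v, hv⟩, by omega⟩

end Pool.Agent.LM2
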